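import Pool.Agent.helper96.SV.SpecA

set_option autoImplicit false
set_option linter.unusedSectionVars false

namespace Pool.Agent.SVA

open Polynomial Module

theorem ROT_coeff {K : Type} [Fintype K] [DecidableEq K] {m : K → ℕ}
    (g : (i : K) → Matrix (Fin (m i + 1)) (Fin (m i + 1)) ℂ) (F : Bx m → ℂ[X]) (γ : Bx m) (n : ℕ) :
    (gtP g F γ).coeff n = gt g (fun β => (F β).coeff n) γ := by
  unfold gtP gt
  rw [Polynomial.finsetSum_coeff]
  refine Finset.sum_congr rfl (fun β _ => ?_)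
  rw [Polynomial.coeff_C_mul]

theorem ROT_ev {K : Type} [Fintype K] [DecidableEq K] {m : K → ℕ}
    (g : (i : K) → Matrix (Fin (m i + 1)) (Fin (m i + 1)) ℂ) (p : ℂ) (F : Bx m → ℂ[X]) :
    ev p (gtP g F) = gt g (ev p F) := by
  funext γ
  unfold ev gtP gt
  rw [Polynomial.eval_finsetSum]
  refine Finset.sum_congr rfl (fun β _ => ?_)
  rw [Polynomial.eval_mul, Polynomial.eval_C]

theorem ROT_dv {K : Type} [Fintype K] [DecidableEq K] {m : K → ℕ}
    (g : (i : K) → Matrix (Fin (m i + 1)) (Fin (m i + 1)) ℂ) (p : ℂ) (F : Bx m → ℂ[X]) :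
    dv p (gtP g F) = gt g (dv p F) := by
  funext γ
  unfold dv gtP gt
  rw [Polynomial.derivative_sum, Polynomial.eval_finsetSum]
  refine Finset.sum_congr rfl (fun β _ => ?_)
  rw [Polynomial.derivative_C_mul, Polynomial.eval_mul, Polynomial.eval_C]

theorem ROT_comp (hGZT : GZT_stmt) {K : Type} [Fintype K] [DecidableEq K] {m : K → ℕ}
    (g h : (i : K) → Matrix (Fin (m i + 1)) (Fin (m i + 1)) ℂ) (hgh : ∀ i, g i * h i = 1)
    (F : Bx m → ℂ[X]) : gtP h (gtP g F) = F := by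
  obtain ⟨-, -, -, -, h5, h6, -⟩ := hGZT g h
  funext γ
  ext n
  rw [ROT_coeff]
  have h1 : (fun β => (gtP g F β).coeff n) = gt g (fun β => (F β).coeff n) := by
    funext β
    rw [ROT_coeff]
  rw [h1, h5]
  have h2 : (fun i => g i * h i) = fun _ => 1 := by
    funext i
    exact hgh i
  rw [h2, h6]

theorem ROT_mp (hGZT : GZT_stmt) {K : Type} [Fintype K] [DecidableEq K] {m : K → ℕ}
    (g : (i : K) → Matrix (Fin (m i + 1)) (Fin (m i + 1)) ℂ) (P : Py m × ℂ) (F : Bx m → ℂ[X])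
    (hF : F ∈ Sg (rotP g P)) : gtP g F ∈ Sg P := by
  obtain ⟨h1, h2, -, -, -, -, h7⟩ := hGZT g g
  rw [mem_Sg] at hF ⊢
  obtain ⟨ha, hb⟩ := hF
  constructor
  · intro z hz
    rw [ROT_ev, h2]
    exact ha _ (h7 _ z hz)
  · rw [ROT_dv, h2, h1]
    exact hb

theorem ROT_WW {K : Type} [Fintype K] [DecidableEq K] {m : K → ℕ}
    (g : (i : K) → Matrix (Fin (m i + 1)) (Fin (m i + 1)) ℂ) (e : ℕ) (F : Bx m → ℂ[X])
    (hF : F ∈ WW m e) : gtP g F ∈ WW m e := by
  rw [mem_WW] at hF ⊢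
  intro γ
  rw [← Polynomial.mem_degreeLT]
  unfold gtP
  refine Submodule.sum_mem _ (fun β _ => ?_)
  rw [← Polynomial.smul_eq_C_mul]
  exact Submodule.smul_mem _ _ (Polynomial.mem_degreeLT.mpr (hF β))

theorem ROT_rot {K : Type} [Fintype K] [DecidableEq K] {m : K → ℕ}
    (g h : (i : K) → Matrix (Fin (m i + 1)) (Fin (m i + 1)) ℂ) (hgh : ∀ i, g i * h i = 1)
    (P : Py m × ℂ) : rotP g (rotP h P) = P := by
  obtain ⟨y, p⟩ := P
  unfold rotP
  simp only [Prod.mk.injEq, and_true]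
  funext i
  rw [Matrix.mulVec_mulVec, hgh i, Matrix.one_mulVec]

/-- Module ROT: change of basis. -/
theorem ROT (hGZT : GZT_stmt) : ROT_stmt := by
  intro K _ _ m g hg
  have hgh : ∀ i, g i * (g i)⁻¹ = 1 := fun i => Matrix.mul_nonsing_inv _ (hg i)
  have hhg : ∀ i, (g i)⁻¹ * g i = 1 := fun i => Matrix.nonsing_inv_mul _ (hg i)
  have c1 : ∀ F : Bx m → ℂ[X], gtP (fun i => (g i)⁻¹) (gtP g F) = F := fun F =>
    ROT_comp hGZT g _ hgh F
  have c2 : ∀ F : Bx m → ℂ[X], gtP g (gtP (fun i => (g i)⁻¹) F) = F := fun F =>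
    ROT_comp hGZT (fun i => (g i)⁻¹) g hhg F
  have p1 : ∀ (P : Py m × ℂ) (F : Bx m → ℂ[X]),
      gtP g F ∈ Sg (rotP (fun i => (g i)⁻¹) P) ↔ F ∈ Sg P := by
    intro P F
    constructor
    · intro h
      have h1 := ROT_mp hGZT (fun i => (g i)⁻¹) P (gtP g F) h
      rwa [c1] at h1
    · intro h
      apply ROT_mp hGZT g
      rw [ROT_rot g _ hgh P]
      exact h
  have p2 : ∀ (e : ℕ) (F : Bx m → ℂ[X]), gtP g F ∈ WW m e ↔ F ∈ WW m e := by
    intro e F
    constructor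
    · intro h
      have h1 := ROT_WW (fun i => (g i)⁻¹) e _ h
      rwa [c1] at h1
    · exact ROT_WW g e F
  refine ⟨p1, p2, fun G => ⟨gtP (fun i => (g i)⁻¹) G, c2 G⟩,
    fun p F => ⟨ROT_ev g p F, ROT_dv g p F⟩, ?_⟩
  intro e l
  let E : (Bx m → ℂ[X]) ≃ₗ[ℂ] (Bx m → ℂ[X]) :=
    { toFun := gtP g
      invFun := gtP (fun i => (g i)⁻¹)
      left_inv := c1
      right_inv := c2
      map_add' := by
        intro F G
        funext γ
        unfold gtP
        rw [Pi.add_apply, ← Finset.sum_add_distrib]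
        refine Finset.sum_congr rfl (fun β _ => ?_)
        rw [Pi.add_apply, mul_add]
      map_smul' := by
        intro c F
        funext γ
        unfold gtP
        rw [Pi.smul_apply, Finset.smul_sum]
        refine Finset.sum_congr rfl (fun β _ => ?_)
        rw [Pi.smul_apply, RingHom.id_apply, mul_smul_comm] }
  have hmap : NN e (l.map (rotP (fun i => (g i)⁻¹))) = (NN e l).map (E : _ →ₗ[ℂ] _) := by
    ext G
    constructor
    · intro hG
      rw [mem_NN] at hG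
      obtain ⟨hd, hs⟩ := hG
      refine ⟨gtP (fun i => (g i)⁻¹) G, ?_, c2 G⟩
      have h1 : gtP (fun i => (g i)⁻¹) G ∈ NN e l := by
        rw [mem_NN]
        refine ⟨?_, fun P hP => ?_⟩
        · rw [← mem_WW, ← p2, c2, mem_WW]
          exact hd
        · rw [← p1, c2]
          exact hs _ (List.mem_map_of_mem hP)
      exact h1
    · rintro ⟨F, hF, rfl⟩
      have hF' : F ∈ NN e l := hF
      rw [mem_NN] at hF'
      obtain ⟨hd, hs⟩ := hF'
      show gtP g F ∈ _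
      rw [mem_NN]
      refine ⟨?_, fun P hP => ?_⟩
      · rw [← mem_WW, p2, mem_WW]
        exact hd
      · rw [List.mem_map] at hP
        obtain ⟨Q, hQ, rfl⟩ := hP
        rw [p1]
        exact hs Q hQ
  rw [hmap]
  exact LinearEquiv.finrank_map_eq E (NN e l)

end Pool.Agent.SVA
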